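import Pool.Agent.PFC.StmtsB5a

/-!
# Squad PFC, row LOQa (helper59): the local structure of `A(Q)`
-/

open scoped BigOperators TensorProduct

noncomputable section

namespace Pool.Agent.PFC.B5a.H59

/-- the isomorphism `Mat_n(F V) = Mat_n(F) ⊗ F V` -/
def mte (F V : Type) [Field F] [CommGroup V] (n : ℕ) :
    Matrix (Fin n) (Fin n) (MonoidAlgebra F V) ≃ₐ[F]
      Matrix (Fin n) (Fin n) F ⊗[F] MonoidAlgebra F V :=
  (matrixEquivTensor (Fin n) F (MonoidAlgebra F V)).trans
    (Algebra.TensorProduct.comm F (MonoidAlgebra F V) (Matrix (Fin n) (Fin n) F))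

theorem mte_symm (F V : Type) [Field F] [CommGroup V] (n : ℕ) (M : Matrix (Fin n) (Fin n) F)
    (u : V) : (mte F V n).symm (M ⊗ₜ[F] MonoidAlgebra.of F V u) =
      Matrix.of fun i j => MonoidAlgebra.single u (M i j) := by
  have h : (mte F V n).symm (M ⊗ₜ[F] MonoidAlgebra.of F V u) =
      (matrixEquivTensor (Fin n) F (MonoidAlgebra F V)).symm
        (MonoidAlgebra.of F V u ⊗ₜ[F] M) := rfl
  rw [h, matrixEquivTensor_apply_symm]
  apply Matrix.ext
  intro i j
  change MonoidAlgebra.of F V u * algebraMap F (MonoidAlgebra F V) (M i j) =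
    MonoidAlgebra.single u (M i j)
  rw [MonoidAlgebra.of_apply, MonoidAlgebra.coe_algebraMap]
  simp [MonoidAlgebra.single_mul_single]

theorem loq : LoqStmt := by
  intro hBki hQex hQfc hQfm hQps hQtp hQmt hCps hLoc F V E A _ _ _ _ _ _ ℓ _ φ W α Q n π
    hctx hpin hQ hl
  have : Fact ℓ.Prime := ⟨hctx.pr⟩
  have := hpin.fin
  obtain ⟨B, _, _, q, hq⟩ := hQex hBki F V A α Q
  obtain ⟨π', h1, h2, h3, h4⟩ := hQmt F V A B α Q q n π hq hl
  obtain ⟨lam, hlam⟩ := hpin.frm
  obtain ⟨htp, hloc⟩ :=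
    hQtp hBki hQfc ℓ F V A B α Q q _ hctx.pg hq hpin.ps hpin.top hpin.loc
  have hps := hQps hBki hQfc ℓ F V E A B φ W α Q q hctx hq hQ hpin.ps
  have hLB : LB F (be F α Q q) n π' :=
    { fin := h3
      frm := hQfm hBki ℓ F V A B α Q q _ lam hctx.pg hq hpin.ps hlam
      loc := hloc
      ps := hps
      top := htp
      pos := hl.pos
      sur := h2
      nil := h4
      cop := hl.cop }
  have : Nontrivial V := by
    obtain ⟨u, hu⟩ := hctx.nt
    refine ⟨⟨u, 1, ?_⟩⟩
    rintro rfl
    exact hu W.one_mem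
  obtain ⟨f, hf, hbij⟩ := hLoc ℓ F V B (be F α Q q) n π' hctx.pg hLB
  have hcomp : (π' : B →* Matrix (Fin n) (Fin n) F).comp (be F α Q q) =
      (π : Cz F α Q →* Matrix (Fin n) (Fin n) F).comp (zin F α Q) := by
    apply MonoidHom.ext
    intro u
    exact h1 (zin F α Q u)
  constructor
  · rw [← hcomp]
    exact hCps F V B (be F α Q q) n π' f _ hf hbij hps
  · refine ⟨((mte F V n : Matrix (Fin n) (Fin n) (MonoidAlgebra F V) →ₐ[F]
      Matrix (Fin n) (Fin n) F ⊗[F] MonoidAlgebra F V).comp f).comp q, ?_, ?_, ?_⟩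
    · intro y
      obtain ⟨x, hx⟩ := (mte F V n).surjective y
      obtain ⟨b, hb⟩ := hbij.2 x
      obtain ⟨a, ha⟩ := hq.sur b
      refine ⟨a, ?_⟩
      change mte F V n (f (q a)) = y
      rw [ha, hb, hx]
    · intro a
      rw [← hq.ker a]
      change mte F V n (f (q a)) = 0 ↔ q a = 0
      constructor
      · intro h
        apply hbij.1
        rw [map_zero]
        apply (mte F V n).injective
        rw [h, map_zero]
      · intro h
        rw [h, map_zero, map_zero]
    · intro u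
      change mte F V n (f (q (zin F α Q u))) = _
      rw [← (mte F V n).apply_symm_apply (π (zin F α Q u) ⊗ₜ[F] MonoidAlgebra.of F V u),
        mte_symm]
      have h5 : f (q (zin F α Q u)) =
          Matrix.of fun i j => MonoidAlgebra.single u (π (zin F α Q u) i j) := by
        ext1 i j
        rw [Matrix.of_apply, ← h1]
        exact hf.grp u i j
      rw [h5]

end Pool.Agent.PFC.B5a.H59
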