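import Pool.Agent.PFC.StmtsB4b

/-!
# Squad PFC, row QLL (helper59): the fixed algebra of the corner is local
-/

open scoped BigOperators TensorProduct

noncomputable section

namespace Pool.Agent.PFC.H59

/-- `x` is fixed by the conjugation iff it commutes -/
theorem fx_top_iff {F V A : Type} [Field F] [CommGroup V] [Ring A] [Algebra F A] (α : V →* A)
    (x : A) : x ∈ Fx (cj F α) ⊤ ↔ ∀ v, α v * x = x * α v := by
  have hform : ∀ (v : V) (y : A), cj F α v y = α v * (y * α v⁻¹) := fun _ _ => rfl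
  constructor
  · intro h v
    have h1 : cj F α v x = x := h v (Subgroup.mem_top v)
    rw [hform] at h1
    calc α v * x = α v * (x * (α v⁻¹ * α v)) := by
          rw [← map_mul, inv_mul_cancel, map_one, mul_one]
      _ = (α v * (x * α v⁻¹)) * α v := by noncomm_ring
      _ = x * α v := by rw [h1]
  · intro h v _
    change cj F α v x = x
    rw [hform, ← mul_assoc, h v, mul_assoc, ← map_mul, mul_inv_cancel, map_one, mul_one]

theorem qll : QllStmt := by
  intro F V _ _ X X' b j κ hb hj hκ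
  -- multiplicativity facts
  have hjl : ∀ a, j * κ a = κ a := by
    intro a
    rw [← hκ.one, ← hκ.mul, one_mul]
  have hjr : ∀ a, κ a * j = κ a := by
    intro a
    rw [← hκ.one, ← hκ.mul, mul_one]
  have hpow : ∀ (a : X'.A) (n : ℕ), 0 < n → κ (a ^ n) = κ a ^ n := by
    intro a n hn
    induction n with
    | zero => exact absurd hn (lt_irrefl 0)
    | succ m ih =>
      rcases Nat.eq_zero_or_pos m with h | h
      · subst h
        rw [zero_add, pow_one, pow_one]
      · rw [pow_succ, hκ.mul, ih h, ← pow_succ]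
  -- κ maps fixed elements to fixed elements
  have hfix : ∀ a ∈ Fx (cj F X'.ι) ⊤, κ a ∈ Fx (cj F X.ι) ⊤ := by
    intro a ha
    rw [fx_top_iff] at ha ⊢
    intro v
    calc X.ι v * κ a = (X.ι v * j) * κ a := by rw [mul_assoc, hjl]
      _ = κ (X'.ι v * a) := by rw [← hκ.cov, hκ.mul]
      _ = κ (a * X'.ι v) := by rw [ha v]
      _ = κ a * (X.ι v * j) := by rw [hκ.mul, hκ.cov]
      _ = κ a * (j * X.ι v) := by rw [hκ.com]
      _ = κ a * X.ι v := by rw [← mul_assoc, hjr]
  have hkey : ∀ a ∈ Fx (cj F X'.ι) ⊤, IsNilpotent (a - algebraMap F X'.A (b (κ a))) := by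
    intro a ha
    have hx : κ a - b (κ a) • j ∈ Fx (cj F X.ι) ⊤ :=
      Submodule.sub_mem _ (hfix a ha) (Submodule.smul_mem _ _ hj.fx)
    have hx2 : j * (κ a - b (κ a) • j) * j = κ a - b (κ a) • j := by
      rw [mul_sub, sub_mul, hjl, hjr, mul_smul_comm, smul_mul_assoc, hj.id, hj.id]
    have hx3 : b (j * (κ a - b (κ a) • j) * j) = 0 := by
      rw [hx2, map_sub, map_smul, hj.bj, smul_eq_mul, mul_one, sub_self]
    obtain ⟨n, hn⟩ := hj.nil _ hx hx3
    rw [hx2] at hn
    refine ⟨n + 1, ?_⟩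
    apply hκ.inj
    rw [map_zero, hpow _ _ (Nat.succ_pos n), map_sub, Algebra.algebraMap_eq_smul_one, map_smul,
      hκ.one, pow_succ, hn, zero_mul]
  have hne : (1 : X'.A) ≠ 0 := by
    intro h
    have h1 : j = 0 := by rw [← hκ.one, h, map_zero]
    have h2 := hj.bj
    rw [h1, map_zero] at h2
    exact zero_ne_one h2
  have hCz : ∀ a : Cz F X'.ι ⊤, (a : X'.A) ∈ Fx (cj F X'.ι) ⊤ := by
    intro a
    rw [fx_top_iff]
    intro v
    exact (Subalgebra.mem_centralizer_iff F).1 a.2 _ ⟨v, Subgroup.mem_top v, rfl⟩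
  refine ⟨fun a ha => ⟨_, hkey a ha⟩, ?_⟩
  have hnt : Nontrivial (Cz F X'.ι ⊤) := by
    refine ⟨⟨1, 0, ?_⟩⟩
    intro h
    apply hne
    have := congrArg (fun z : Cz F X'.ι ⊤ => (z : X'.A)) h
    simpa using this
  have hunit : ∀ a : Cz F X'.ι ⊤, b (κ (a : X'.A)) ≠ 0 → IsUnit a := by
    intro a ha
    have h1 : IsNilpotent (a - algebraMap F (Cz F X'.ι ⊤) (b (κ (a : X'.A)))) := by
      obtain ⟨n, hn⟩ := hkey a (hCz a)
      refine ⟨n, ?_⟩
      apply Subtype.ext
      rw [SubmonoidClass.coe_pow]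
      exact hn
    have h2 : IsUnit (algebraMap F (Cz F X'.ι ⊤) (b (κ (a : X'.A)))) :=
      (IsUnit.mk0 _ ha).map (algebraMap F (Cz F X'.ι ⊤))
    have h3 := h1.isUnit_add_left_of_commute h2 (Algebra.commute_algebraMap_right _ _)
    rwa [add_sub_cancel] at h3
  refine IsLocalRing.of_is_unit_or_is_unit_of_add_one ?_
  intro a c hac
  by_cases h : b (κ (a : X'.A)) = 0
  · right
    apply hunit
    have h1 : b (κ ((a : X'.A) + (c : X'.A))) = 1 := by
      have h2 : (a : X'.A) + (c : X'.A) = 1 := by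
        have := congrArg (fun z : Cz F X'.ι ⊤ => (z : X'.A)) hac
        simpa using this
      rw [h2, hκ.one, hj.bj]
    rw [map_add, map_add, h, zero_add] at h1
    rw [h1]
    exact one_ne_zero
  · left
    exact hunit a h

end Pool.Agent.PFC.H59
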